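import Pool.Agent.Work.MP_2b4d3b_al.Main

/-!
# Leavitt path algebras of finite graphs with disjoint cycles

Let `G` be a finite graph whose cycles are pairwise disjoint (equivalently, whose Leavitt path
algebra has finite Gelfand-Kirillov dimension). If the Leavitt path algebras of `G` and of a finite
graph `G'` over some fields are isomorphic as rings, then the Leavitt path algebras of `G` and `G'`
over every field with involution are isomorphic as algebras with involution. If the algebras
over a fixed field are isomorphic as algebras, `G'` may have infinitely many edges.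
-/

namespace Pool.Agent.Results.MP_2b4d3b_al.DisjointCycles

open Pool.Agent.Work.MP_2b4d3b_al

universe u v w v' w'

/-- For a finite graph `G` with disjoint cycles and a graph `G'` with finitely many vertices:
(1) if `G'` is finite and `L_{K₁}(G)`, `L_{K₂}(G')` are isomorphic as rings for some fields `K₁`,
`K₂`, then `G'` has disjoint cycles and for every field `K` with involution there is a
`*`-algebra isomorphism between `L_K(G)` and `L_K(G')`;
(2) if `K` is a field with involution and `L_K(G)`, `L_K(G')` are isomorphic as `K`-algebras, then
they are isomorphic as `*`-algebras. -/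
theorem result {V : Type v} {E : Type w} [Finite V] [Finite E] (G : Gr V E) (hG : DisjCycles G)
    {V' : Type v'} {E' : Type w'} [Finite V'] (G' : Gr V' E') :
    (Finite E' → ∀ (K₁ K₂ : Type u) [Field K₁] [Field K₂],
      Nonempty (LPA K₁ G ≃+* LPA K₂ G') →
        DisjCycles G' ∧ ∀ (K : Type u) [Field K] [StarRing K],
          ∃ f : LPA K G ≃ₐ[K] LPA K G', ∀ x, f (star x) = star (f x)) ∧
    ∀ (K : Type u) [Field K] [StarRing K], Nonempty (LPA K G ≃ₐ[K] LPA K G') →
      ∃ f : LPA K G ≃ₐ[K] LPA K G', ∀ x, f (star x) = star (f x) := by
  constructor
  · intro _ K₁ K₂ _ _ h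
    refine ⟨h.elim fun φ => dc_inv G G' hG K₁ K₂ φ, ?_⟩
    intro K _ _
    exact main G G' hG K₁ K₂ h K
  · intro K _ _ h
    exact main_alg G G' hG K h

end Pool.Agent.Results.MP_2b4d3b_al.DisjointCycles
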