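import Pool.Agent.Work.MP_2b4d3b_al.NE.MainNE
import Pool.Agent.Work.MP_2b4d3b_al.NE.Alg

/-!
# Leavitt path algebras of graphs without exits

Let `G` be a graph (of any cardinality) in which every vertex emits at most countably many edges and
no cycle has an exit. If the Leavitt path algebra of `G` over some field is isomorphic, as a ring,
to the Leavitt path algebra of a graph `F` over some field, then for every commutative ring `K` with
involution the Leavitt path algebras of `G` and `F` over `K` are isomorphic as `*`-algebras.
-/

namespace Pool.Agent.Results.MP_2b4d3b_al.NoExit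

open Pool.Agent.Work.MP_2b4d3b_al.NE

universe u v w v' w' z

/-- Let `G` be a graph without exits such that every vertex emits at most countably many edges, and
`F` an arbitrary graph. If `L_{K₁}(G)` and `L_{K₂}(F)` are isomorphic as rings for some fields `K₁`,
`K₂`, then `F` is a graph of the same kind, and for every commutative ring `K` with involution there
is a `K`-linear ring isomorphism `L_K(G) ≃ L_K(F)` that preserves the involution. -/
theorem result {V : Type v} {E : Type w} {V' : Type v'} {E' : Type w'} (G : Gr V E) (F : Gr V' E')
    (hR : RowCountable G) (hG : NoExit G) (K₁ K₂ : Type u) [Field K₁] [Field K₂]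
    (f : UA K₁ G → UA K₂ F) (hf : IsRingIso K₁ G K₂ F f) :
    NoExit F ∧ RowCountable F ∧ ∀ (K : Type z) [CommRing K] [StarRing K],
      ∃ g : UA K G → UA K F, IsStarIso K G F g := by
  obtain ⟨h1, h2, h3⟩ := main_ne G F hR hG K₁ K₂ hf.equiv
  refine ⟨h1, h2, fun K _ _ => ?_⟩
  obtain ⟨g, hg, hs⟩ := h3 K
  exact isStarIso_of g hg hs

end Pool.Agent.Results.MP_2b4d3b_al.NoExit
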